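import Pool.Agent.Helper32.AG.Goals

set_option autoImplicit false

/-!
# Project AG (MP_0f21ab_al), packet N2
-/

namespace Pool.Agent.Helper30.AG

open Pool.Agent.Helper32.AG

/-- `(w+1)² w² ≤ 3 ^ (w+2)`. -/
theorem pow_aux (w : ℕ) : (w + 1) ^ 2 * w ^ 2 ≤ 3 ^ (w + 2) := by
  induction w with
  | zero => norm_num
  | succ w ih =>
    rcases Nat.lt_or_ge w 3 with h | h
    · interval_cases w <;> norm_num
    · have h1 : (w + 1 + 1) ^ 2 * (w + 1) ^ 2 ≤ 3 * ((w + 1) ^ 2 * w ^ 2) := by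
        have : (w + 1 + 1) ^ 2 ≤ 3 * w ^ 2 := by nlinarith
        calc (w + 1 + 1) ^ 2 * (w + 1) ^ 2 ≤ (3 * w ^ 2) * (w + 1) ^ 2 :=
              Nat.mul_le_mul_right _ this
          _ = 3 * ((w + 1) ^ 2 * w ^ 2) := by ring
      calc (w + 1 + 1) ^ 2 * (w + 1) ^ 2 ≤ 3 * ((w + 1) ^ 2 * w ^ 2) := h1
        _ ≤ 3 * 3 ^ (w + 2) := Nat.mul_le_mul_left _ ih
        _ = 3 ^ (w + 1 + 2) := by ring

/-- `(N² (N² + 2))² ≤ 16 · 3 ^ (N + 1)` for `N ≥ 18`. -/
theorem pow_aux2 (N : ℕ) (hN : 18 ≤ N) : (N ^ 2 * (N ^ 2 + 2)) ^ 2 ≤ 16 * 3 ^ (N + 1) := by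
  induction N, hN using Nat.le_induction with
  | base => norm_num
  | succ N hN ih =>
    have h1 : ((N + 1) ^ 2 * ((N + 1) ^ 2 + 2)) ^ 2 ≤ 3 * (N ^ 2 * (N ^ 2 + 2)) ^ 2 := by
      have h2 : 4 * ((N + 1) ^ 2 * ((N + 1) ^ 2 + 2)) ≤ 5 * (N ^ 2 * (N ^ 2 + 2)) := by
        obtain ⟨m, rfl⟩ := Nat.exists_eq_add_of_le hN
        ring_nf
        nlinarith [Nat.zero_le m, Nat.zero_le (m ^ 2), Nat.zero_le (m ^ 3), Nat.zero_le (m ^ 4)]
      have h3 : (4 * ((N + 1) ^ 2 * ((N + 1) ^ 2 + 2))) ^ 2 ≤ (5 * (N ^ 2 * (N ^ 2 + 2))) ^ 2 :=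
        Nat.pow_le_pow_left h2 2
      nlinarith [h3, Nat.zero_le ((N ^ 2 * (N ^ 2 + 2)) ^ 2)]
    calc ((N + 1) ^ 2 * ((N + 1) ^ 2 + 2)) ^ 2 ≤ 3 * (N ^ 2 * (N ^ 2 + 2)) ^ 2 := h1
      _ ≤ 3 * (16 * 3 ^ (N + 1)) := Nat.mul_le_mul_left _ ih
      _ = 16 * 3 ^ (N + 1 + 1) := by ring

/-- The mean value inequality. -/
theorem mean (w e α kk r : ℕ) (he : 0 < e) (h1 : α + e ^ 2 + 3 * e ≤ 2 * e * kk + 1)
    (h2 : w ^ 2 ≤ r * (2 * e * α)) : 2 * w + e ^ 2 + 3 * e ≤ 2 * e * (kk + r) + 1 := by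
  have h3 : 2 * w ≤ α + 2 * e * r := by
    have h4 : (2 * w) ^ 2 ≤ (α + 2 * e * r) ^ 2 := by
      zify at h2 ⊢
      nlinarith [sq_nonneg ((α : ℤ) - 2 * e * r)]
    exact (Nat.pow_le_pow_iff_left two_ne_zero).mp h4
  nlinarith

theorem n2 : N2Stmt := by
  intro p a e α kk c r hp hp2 ha hq he hα hea hpe h9 h25 hk hc hr hcx hrx
  obtain ⟨w, hw⟩ : ∃ w, p ^ a = w + 1 := ⟨p ^ a - 1, by omega⟩
  have hw' : p ^ a - 1 = w := by omega
  rw [hw'] at hcx hrx ⊢
  rw [hw] at hq h9 h25 ⊢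
  have hm := mean w e α kk r he hk hrx
  have h3 : 1 ≤ 3 := by norm_num
  -- the case `e = 1`
  rcases Nat.lt_or_ge 1 e with he1 | he1
  swap
  · have he1' : e = 1 := by omega
    subst he1'
    have : w + 2 ≤ kk + c + r - 1 := by omega
    calc (w + 1) ^ 2 * w ^ 2 ≤ 3 ^ (w + 2) := pow_aux w
      _ ≤ 3 ^ (kk + c + r - 1) := Nat.pow_le_pow_right (by norm_num) this
  -- large `q`
  rcases Nat.lt_or_ge w 162 with hws | hwl
  swap
  · obtain ⟨N, hN⟩ : ∃ N, kk + r = N + 1 := ⟨kk + r - 1, by omega⟩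
    have h4 : 2 * w ≤ N ^ 2 := by
      rw [hN] at hm
      have h5 : 2 * w + e ^ 2 ≤ 2 * e * N := by nlinarith
      zify at h5 ⊢
      nlinarith [sq_nonneg ((N : ℤ) - e)]
    have h6 : 18 ≤ N := by
      by_contra h
      have : N ≤ 17 := by omega
      have : N ^ 2 ≤ 17 ^ 2 := Nat.pow_le_pow_left this 2
      omega
    have h7 := pow_aux2 N h6
    have h8 : (2 * w * (2 * w + 2)) ^ 2 ≤ (N ^ 2 * (N ^ 2 + 2)) ^ 2 :=
      Nat.pow_le_pow_left (Nat.mul_le_mul h4 (Nat.add_le_add_right h4 2)) 2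
    have h9' : 16 * ((w + 1) ^ 2 * w ^ 2) = (2 * w * (2 * w + 2)) ^ 2 := by ring
    have h10 : (w + 1) ^ 2 * w ^ 2 ≤ 3 ^ (N + 1) := by omega
    calc (w + 1) ^ 2 * w ^ 2 ≤ 3 ^ (N + 1) := h10
      _ ≤ 3 ^ (kk + c + r - 1) := Nat.pow_le_pow_right (by norm_num) (by omega)
  -- small `q`
  have ha1 : 2 ≤ a := by
    by_contra h
    have : a = 1 := by omega
    subst this
    have := Nat.le_of_dvd (by norm_num) hea
    omega
  have hp3 : 3 ≤ p := by
    have := hp.two_le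
    omega
  have ha4 : a ≤ 4 := by
    by_contra h
    have h5 : 5 ≤ a := by omega
    have : 3 ^ 5 ≤ p ^ a := (Nat.pow_le_pow_left hp3 5).trans
      (Nat.pow_le_pow_right (by omega) h5)
    norm_num at this
    omega
  have hp12 : p ≤ 12 := by
    by_contra h
    have : 13 ^ 2 ≤ p ^ a := (Nat.pow_le_pow_left (by omega : 13 ≤ p) 2).trans
      (Nat.pow_le_pow_right (by omega) ha1)
    norm_num at this
    omega
  have key : ∀ n : ℕ, n ≤ kk + r → (w + 1) ^ 2 * w ^ 2 ≤ 3 ^ n →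
      (w + 1) ^ 2 * w ^ 2 ≤ 3 ^ (kk + c + r - 1) := fun n hn h =>
    h.trans (Nat.pow_le_pow_right (by norm_num) (by omega))
  have hee : e ≤ a ^ 2 := Nat.le_of_dvd (by positivity) hea
  have hpp : p = 3 ∨ p = 5 ∨ p = 7 ∨ p = 11 := by
    interval_cases p <;> first | omega | (exfalso; revert hp; norm_num)
  have haa : a = 2 ∨ a = 3 ∨ a = 4 := by omega
  rcases hpp with rfl | rfl | rfl | rfl <;> rcases haa with rfl | rfl | rfl
  -- p = 3, a = 2
  · exfalso
    exact h9 ⟨by omega, by omega⟩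
  -- p = 3, a = 3
  · exfalso
    have hee' : e ≤ 9 := by omega
    interval_cases e <;> omega
  -- p = 3, a = 4
  · have hw80 : w = 80 := by omega
    subst hw80
    have hee' : e ≤ 16 := by omega
    interval_cases e <;> try omega
    · exact key 16 (by omega) (by norm_num)
    · exact key 16 (by omega) (by norm_num)
    · exact key 16 (by omega) (by norm_num)
    · -- e = 16
      have h16 : 16 ≤ kk + c + r - 1 := by
        rcases Nat.lt_or_ge c 2 with hc1 | hc2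
        · have hc1' : c = 1 := by omega
          subst hc1'
          have hα5 : α ≤ 5 := by omega
          have : r * (2 * 16 * α) ≤ r * 160 := Nat.mul_le_mul_left _ (by omega)
          omega
        · omega
      calc (80 + 1) ^ 2 * 80 ^ 2 ≤ 3 ^ 16 := by norm_num
        _ ≤ 3 ^ (kk + c + r - 1) := Nat.pow_le_pow_right (by norm_num) h16
  -- p = 5, a = 2
  · have hw24 : w = 24 := by omega
    subst hw24
    have hee' : e ≤ 4 := by omega
    interval_cases e <;> try omega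
    · exact key 12 (by omega) (by norm_num)
  -- p = 5, a = 3
  · have hw124 : w = 124 := by omega
    subst hw124
    have hee' : e ≤ 9 := by omega
    interval_cases e <;> try omega
    · exact key 18 (by omega) (by norm_num)
    · exact key 18 (by omega) (by norm_num)
  · omega
  -- p = 7
  · have hw48 : w = 48 := by omega
    subst hw48
    have hee' : e ≤ 4 := by omega
    interval_cases e <;> try omega
    · exact key 15 (by omega) (by norm_num)
    · exact key 15 (by omega) (by norm_num)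
  · omega
  · omega
  -- p = 11
  · have hw120 : w = 120 := by omega
    subst hw120
    have hee' : e ≤ 4 := by omega
    interval_cases e <;> try omega
    · exact key 18 (by omega) (by norm_num)
    · exact key 18 (by omega) (by norm_num)
  · omega
  · omega

end Pool.Agent.Helper30.AG
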